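import Pool.Agent.Helper36.Pin.Defs3

/-!
# Generic realizations: no three collinear points, existence, pinning with at most two vertices
-/

namespace Pool.Agent.Helper36.Pin

open Finset Module

variable {V : Type} [Fintype V] [DecidableEq V]

/-- a polynomial with rational coefficients which does not vanish at some rational point does not
vanish at a generic point -/
theorem generic_ne (p : V → Fin 2 → ℝ) (hp : Generic p) (f : MvPolynomial (V × Fin 2) ℚ)
    (r : V × Fin 2 → ℚ) (hr : MvPolynomial.aeval r f ≠ 0) :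
    MvPolynomial.aeval (fun x : V × Fin 2 => p x.1 x.2) f ≠ 0 := by
  intro h
  have h1 := (algebraicIndependent_iff.1 hp) f h
  rw [h1] at hr
  simp at hr

theorem not_collinear (p : V → Fin 2 → ℝ) (hp : Generic p) (a b c : V) (hab : a ≠ b)
    (hac : a ≠ c) (hbc : b ≠ c) :
    (p b 0 - p a 0) * (p c 1 - p a 1) - (p b 1 - p a 1) * (p c 0 - p a 0) ≠ 0 := by
  have h := generic_ne p hp
    ((MvPolynomial.X (b, 0) - MvPolynomial.X (a, 0)) *
        (MvPolynomial.X (c, 1) - MvPolynomial.X (a, 1)) -
      (MvPolynomial.X (b, 1) - MvPolynomial.X (a, 1)) *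
        (MvPolynomial.X (c, 0) - MvPolynomial.X (a, 0)))
    (fun x => if x = (b, 0) then 1 else if x = (c, 1) then 1 else 0) ?_
  · simpa using h
  · simp [hab, hac, hbc, hbc.symm]

theorem exists_generic_real : ∃ p : V → Fin 2 → ℝ, Generic p := by
  obtain ⟨s, hs⟩ := exists_isTranscendenceBasis ℚ ℝ
  have hinf : s.Infinite := by
    intro hfin
    have : Finite s := hfin
    have h1 : Cardinal.mk ℝ ≤ max (Cardinal.mk
        (Algebra.adjoin ℚ (Set.range ((↑) : s → ℝ)))) Cardinal.aleph0 := by
      have := hs.isAlgebraic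
      exact Algebra.IsAlgebraic.cardinalMk_le_max (Algebra.adjoin ℚ (Set.range ((↑) : s → ℝ))) ℝ
    have h2 : Cardinal.mk (Algebra.adjoin ℚ (Set.range ((↑) : s → ℝ))) =
        Cardinal.mk (MvPolynomial s ℚ) :=
      (Cardinal.mk_congr hs.1.aevalEquiv.toEquiv).symm
    have h3 : Cardinal.mk (MvPolynomial s ℚ) ≤ Cardinal.aleph0 := by
      refine MvPolynomial.cardinalMk_le_max.trans ?_
      simp
    rw [h2] at h1
    have h4 : Cardinal.mk ℝ ≤ Cardinal.aleph0 := h1.trans (max_le h3 le_rfl)
    rw [Cardinal.mk_real] at h4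
    exact absurd h4 (not_le.2 Cardinal.aleph0_lt_continuum)
  have : Infinite s := hinf.to_subtype
  obtain ⟨f⟩ : Nonempty (V × Fin 2 ↪ s) := by
    obtain ⟨t, ht⟩ := Infinite.exists_subset_card_eq s (Fintype.card (V × Fin 2))
    have e : V × Fin 2 ≃ t := Fintype.equivOfCardEq (by simp [ht])
    exact ⟨e.toEmbedding.trans (Function.Embedding.subtype _)⟩
  refine ⟨fun v i => (f (v, i) : ℝ), ?_⟩
  have := hs.1.comp f f.injective
  exact this

/-- the reflection in the line through `s` with normal vector `n` -/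
theorem not_geomPins_of (G : SimpleGraph V) (P : Finset V) (p : V → Fin 2 → ℝ) (hp : Generic p)
    (w : V) (s0 s1 n0 n1 : ℝ) (hn : n0 ^ 2 + n1 ^ 2 ≠ 0)
    (hP : ∀ v ∈ P, (p v 0 - s0) * n0 + (p v 1 - s1) * n1 = 0)
    (hw : (p w 0 - s0) * n0 + (p w 1 - s1) * n1 ≠ 0) : ¬ GeomPins G P := by
  intro h
  have hq := h p hp (fun v => ![p v 0 - 2 * ((p v 0 - s0) * n0 + (p v 1 - s1) * n1) /
      (n0 ^ 2 + n1 ^ 2) * n0,
    p v 1 - 2 * ((p v 0 - s0) * n0 + (p v 1 - s1) * n1) /
      (n0 ^ 2 + n1 ^ 2) * n1]) ?_ ?_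
  · have h0 := congrFun (congrFun hq w) 0
    have h1 := congrFun (congrFun hq w) 1
    simp only [Matrix.cons_val_zero, Matrix.cons_val_one, sub_eq_self] at h0 h1
    rw [mul_eq_zero, div_eq_zero_iff] at h0 h1
    have h2 : 2 * ((p w 0 - s0) * n0 + (p w 1 - s1) * n1) ≠ 0 := by
      exact mul_ne_zero two_ne_zero hw
    have h3 : n0 = 0 := by
      rcases h0 with (h0 | h0) | h0
      · exact absurd h0 h2
      · exact absurd h0 hn
      · exact h0
    have h4 : n1 = 0 := by
      rcases h1 with (h0 | h0) | h0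
      · exact absurd h0 h2
      · exact absurd h0 hn
      · exact h0
    apply hn
    rw [h3, h4]; ring
  · intro u v _
    simp only [dsq, Matrix.cons_val_zero, Matrix.cons_val_one]
    field_simp
    ring
  · intro v hv
    have h1 := hP v hv
    funext i
    fin_cases i <;> simp [h1]

/-- a set with at most two elements pins only if it is the whole set -/
theorem geomPins_small (G : SimpleGraph V) (P : Finset V) (hP : P.card ≤ 2)
    (h : GeomPins G P) : P = Finset.univ := by
  by_contra hne
  obtain ⟨w, hw⟩ : ∃ w, w ∉ P := by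
    by_contra hc
    push Not at hc
    exact hne (Finset.eq_univ_iff_forall.2 hc)
  obtain ⟨p, hp⟩ := exists_generic_real (V := V)
  have hcases : P.card = 0 ∨ P.card = 1 ∨ P.card = 2 := by omega
  rcases hcases with h0 | h1 | h2
  · rw [Finset.card_eq_zero] at h0
    subst h0
    exact not_geomPins_of G ∅ p hp w (p w 0 + 1) 0 1 0 (by norm_num) (by simp) (by norm_num) h
  · obtain ⟨a, rfl⟩ := Finset.card_eq_one.1 h1
    have haw : a ≠ w := fun e => hw (by simp [e])
    have hd : p w 0 - p a 0 ≠ 0 := by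
      have := generic_ne p hp (MvPolynomial.X (w, 0) - MvPolynomial.X (a, 0))
        (fun x => if x = (w, 0) then 1 else 0) (by simp [haw])
      simpa using this
    have hn : (p w 0 - p a 0) ^ 2 + (p w 1 - p a 1) ^ 2 ≠ 0 := by
      have := sq_pos_of_ne_zero hd
      have := sq_nonneg (p w 1 - p a 1)
      linarith
    refine not_geomPins_of G {a} p hp w (p a 0) (p a 1) (p w 0 - p a 0) (p w 1 - p a 1) hn ?_ ?_ h
    · intro v hv
      rw [Finset.mem_singleton] at hv
      subst hv
      ring
    · intro e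
      apply hn
      linarith [e]
  · obtain ⟨a, b, hab, rfl⟩ := Finset.card_eq_two.1 h2
    have haw : a ≠ w := fun e => hw (by simp [e])
    have hbw : b ≠ w := fun e => hw (by simp [e])
    have hnc := not_collinear p hp a b w hab haw hbw
    have hd : p b 0 - p a 0 ≠ 0 := by
      have := generic_ne p hp (MvPolynomial.X (b, 0) - MvPolynomial.X (a, 0))
        (fun x => if x = (b, 0) then 1 else 0) (by simp [hab])
      simpa using this
    have hn : (-(p b 1 - p a 1)) ^ 2 + (p b 0 - p a 0) ^ 2 ≠ 0 := by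
      have := sq_pos_of_ne_zero hd
      have := sq_nonneg (-(p b 1 - p a 1))
      linarith
    refine not_geomPins_of G {a, b} p hp w (p a 0) (p a 1) (-(p b 1 - p a 1)) (p b 0 - p a 0)
      hn ?_ ?_ h
    · intro v hv
      rw [Finset.mem_insert, Finset.mem_singleton] at hv
      rcases hv with rfl | rfl <;> ring
    · intro e
      apply hnc
      linarith [e]

end Pool.Agent.Helper36.Pin
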