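import Pool.Agent.Helper36.Pin.Defs

/-!
# Module PN-O: Schwartz-Zippel for the rank of the matrix `T`
-/

namespace Pool.Agent.Helper36.Pin

open Finset MvPolynomial

section general

variable {n : Type*} [Fintype n] [DecidableEq n]

/-- a matrix of rank at least `r` can be compressed to the identity matrix of size `r` -/
theorem O_exists_sandwich {K : Type*} [Field K] (M : Matrix n n K) (r : ℕ) (h : r ≤ M.rank) :
    ∃ (A : Matrix (Fin r) n K) (B : Matrix n (Fin r) K), A * M * B = 1 := by
  have h1 : r ≤ Module.finrank K (LinearMap.range M.mulVecLin) := h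
  obtain ⟨v, hv⟩ := exists_linearIndependent_of_le_finrank h1
  choose b hb using fun i => LinearMap.mem_range.1 (v i).2
  let B : Matrix n (Fin r) K := Matrix.of (fun x i => b i x)
  have hMB : (M * B).col = fun i => ((v i : n → K)) := by
    funext i x
    rw [← hb i]
    rfl
  have hinj : Function.Injective (M * B).mulVec := by
    rw [Matrix.mulVec_injective_iff, hMB]
    exact hv.map' (Submodule.subtype _) (Submodule.ker_subtype _)
  obtain ⟨g, hg⟩ := LinearMap.exists_leftInverse_of_injective (M * B).mulVecLin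
    (LinearMap.ker_eq_bot.2 hinj)
  refine ⟨LinearMap.toMatrix' g, B, ?_⟩
  have : LinearMap.toMatrix' (g ∘ₗ (M * B).mulVecLin) = 1 := by
    rw [hg, LinearMap.toMatrix'_id]
  rw [LinearMap.toMatrix'_comp, ← Matrix.toLin'_apply', LinearMap.toMatrix'_toLin'] at this
  rw [Matrix.mul_assoc, this]

omit [DecidableEq n] in
theorem O_rank_of_sandwich {K : Type*} [Field K] (M : Matrix n n K) (r : ℕ)
    (A : Matrix (Fin r) n K) (B : Matrix n (Fin r) K) (h : (A * M * B).det ≠ 0) :
    r ≤ M.rank := by
  have h1 : (A * M * B).rank = r := by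
    rw [Matrix.rank_of_isUnit _ ((Matrix.isUnit_iff_isUnit_det _).2 (isUnit_iff_ne_zero.2 h))]
    simp
  calc r = (A * M * B).rank := h1.symm
    _ ≤ (A * M).rank := Matrix.rank_mul_le_left _ _
    _ ≤ M.rank := Matrix.rank_mul_le_right _ _

theorem O_totalDegree_det {σ R : Type*} [CommRing R] {r : ℕ}
    (M : Matrix (Fin r) (Fin r) (MvPolynomial σ R)) (d : ℕ) (h : ∀ i j, (M i j).totalDegree ≤ d) :
    M.det.totalDegree ≤ d * r := by
  rw [Matrix.det_apply]
  refine totalDegree_finsetSum_le (fun τ _ => ?_)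
  have hs : (Equiv.Perm.sign τ • ∏ i, M (τ i) i).totalDegree = (∏ i, M (τ i) i).totalDegree := by
    rcases Int.units_eq_one_or (Equiv.Perm.sign τ) with h | h <;> rw [h]
    · rw [one_smul]
    · rw [Units.neg_smul, one_smul, totalDegree_neg]
  rw [hs]
  refine (totalDegree_finsetProd _ _).trans ?_
  · calc ∑ i : Fin r, (M (τ i) i).totalDegree ≤ ∑ _i : Fin r, d := Finset.sum_le_sum (fun i _ => h _ _)
      _ = d * r := by simp [mul_comm]

theorem O_exists_poly {σ : Type*} (M : Matrix n n (MvPolynomial σ ℚ)) (d r : ℕ)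
    (hd : ∀ i j, (M i j).totalDegree ≤ d) (ω₀ : σ → ℚ) (h : r ≤ (M.map (eval ω₀)).rank) :
    ∃ p : MvPolynomial σ ℚ, p ≠ 0 ∧ p.totalDegree ≤ d * r ∧
      ∀ ω : σ → ℚ, (M.map (eval ω)).rank < r → eval ω p = 0 := by
  obtain ⟨A, B, hAB⟩ := O_exists_sandwich _ r h
  let cc : ℚ →+* MvPolynomial σ ℚ := C
  let A' : Matrix (Fin r) n (MvPolynomial σ ℚ) := A.map cc
  let B' : Matrix n (Fin r) (MvPolynomial σ ℚ) := B.map cc
  have hev : ∀ ω : σ → ℚ, eval ω (A' * M * B').det = (A * M.map (eval ω) * B).det := by
    intro ω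
    rw [RingHom.map_det]
    congr 1
    rw [RingHom.mapMatrix_apply, Matrix.map_mul, Matrix.map_mul]
    congr 2
    · ext i j
      simp [A', cc]
    · ext i j
      simp [B', cc]
  refine ⟨(A' * M * B').det, ?_, ?_, ?_⟩
  · intro h0
    have := hev ω₀
    rw [h0, hAB] at this
    simp at this
  · refine O_totalDegree_det _ d (fun i j => ?_)
    rw [Matrix.mul_apply]
    refine totalDegree_finsetSum_le (fun x _ => ?_)
    refine (totalDegree_mul _ _).trans ?_
    have h1 : (B' x j).totalDegree = 0 := totalDegree_C _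
    rw [h1, add_zero, Matrix.mul_apply]
    refine totalDegree_finsetSum_le (fun y _ => ?_)
    refine (totalDegree_mul _ _).trans ?_
    have h2 : (A' i y).totalDegree = 0 := totalDegree_C _
    rw [h2, zero_add]
    exact hd _ _
  · intro ω hω
    by_contra h0
    rw [hev] at h0
    exact absurd (O_rank_of_sandwich _ r A B h0) (by omega)

end general

theorem O_sz {σ : Type*} [Fintype σ] [DecidableEq σ] (p : MvPolynomial σ ℚ) (hp : p ≠ 0) (N : ℕ) :
    (univ.filter (fun ω : σ → Fin N => eval (fun i => ((ω i : ℕ) : ℚ)) p = 0)).card * N ≤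
      p.totalDegree * N ^ Fintype.card σ := by
  rcases Nat.eq_zero_or_pos N with rfl | hN
  · simp
  let e : σ ≃ Fin (Fintype.card σ) := Fintype.equivFin σ
  let q : MvPolynomial (Fin (Fintype.card σ)) ℚ := rename e p
  have hq : q ≠ 0 := by
    intro h0
    exact hp (rename_injective e e.injective (by rw [map_zero]; exact h0))
  have hqd : q.totalDegree = p.totalDegree := totalDegree_renameEquiv e p
  let S : Finset ℚ := univ.image (fun i : Fin N => ((i : ℕ) : ℚ))
  have hSinj : Function.Injective (fun i : Fin N => ((i : ℕ) : ℚ)) := by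
    intro i j h
    simpa [Fin.ext_iff] using h
  have hS : S.card = N := by
    rw [Finset.card_image_of_injective _ hSinj]
    simp
  have key := schwartz_zippel_totalDegree hq S
  rw [hS, hqd, div_le_div_iff₀ (by positivity) (by positivity)] at key
  have key' : ((Fintype.piFinset fun _ : Fin (Fintype.card σ) => S).filter
      (fun f => eval f q = 0)).card * N ≤ p.totalDegree * N ^ Fintype.card σ := by
    exact_mod_cast key
  refine le_trans (Nat.mul_le_mul_right N ?_) key'
  refine Finset.card_le_card_of_injOn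
    (fun ω j => (((ω (e.symm j) : Fin N) : ℕ) : ℚ)) ?_ ?_
  · intro ω hω
    simp only [Finset.coe_filter, Finset.mem_univ, true_and, Set.mem_ofPred_eq] at hω
    simp only [Finset.coe_filter, Fintype.mem_piFinset, Set.mem_ofPred_eq]
    refine ⟨fun j => Finset.mem_image_of_mem _ (Finset.mem_univ _), ?_⟩
    rw [eval_rename]
    have he : ((fun j => (((ω (e.symm j) : Fin N) : ℕ) : ℚ)) ∘ e) =
        fun i => (((ω i : Fin N) : ℕ) : ℚ) := by
      funext i
      simp
    rw [he]
    exact hω
  · intro ω _ ω' _ h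
    funext i
    have := congrFun h (e i)
    simpa [Fin.ext_iff] using this

/-! ### ring homomorphisms -/

section map

variable {V : Type*} [Fintype V] [DecidableEq V] {R S : Type*} [CommRing R] [CommRing S]

omit [Fintype V] in
theorem O_row_map (f : R →+* S) (p : V → Fin 2 → R) (v w : V) (u : V × Fin 2) :
    f (row p v w u) = row (fun v i => f (p v i)) v w u := by
  unfold row
  rw [map_mul, map_sub, map_sub]
  split_ifs <;> simp

omit [DecidableEq V] in
theorem O_fn_map (f : R →+* S) (ω : Var V → R) (x : V × Fin 2 → R) :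
    f (fn ω x) = fn (fun i => f (ω i)) (fun u => f (x u)) := by
  simp [fn, map_sum, map_mul]

theorem O_bv_map (f : R →+* S) (G : SimpleGraph V) (ω : Var V → R) (v : V) (j k : Fin 2)
    (u : V × Fin 2) :
    f (bv G ω v j k u) = bv G (fun i => f (ω i)) v j k u := by
  simp only [bv, Finset.sum_apply, Pi.smul_apply, smul_eq_mul, map_sum, map_mul, O_row_map]
  rfl

theorem O_yv_map (f : R →+* S) (G : SimpleGraph V) (ω : Var V → R) (v : V) (j : Fin 2)
    (u : V × Fin 2) :
    f (yv G ω v j u) = yv G (fun i => f (ω i)) v j u := by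
  simp only [yv, Pi.sub_apply, Pi.smul_apply, smul_eq_mul, map_sub, map_mul, O_fn_map, O_bv_map]

theorem O_T_map (f : R →+* S) (G : SimpleGraph V) (U : Finset V) (ω : Var V → R) :
    (T G U ω).map f = T G U (fun i => f (ω i)) := by
  ext a b
  simp only [T, Matrix.map_apply, Matrix.sum_apply, Matrix.sub_apply, Matrix.vecMulVec_apply,
    map_sum, map_sub, map_mul, O_yv_map]

end map

/-! ### degrees -/

section deg

variable {V : Type*} [Fintype V] [DecidableEq V]

omit [Fintype V] in
theorem O_row_deg (v w : V) (u : V × Fin 2) :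
    (row (pt (fun i : Var V => (X i : MvPolynomial (Var V) ℚ))) v w u).totalDegree ≤ 1 := by
  unfold row pt
  refine (totalDegree_mul _ _).trans ?_
  dsimp only
  have h1 : ((X (Sum.inl (v, u.2)) - X (Sum.inl (w, u.2)) : MvPolynomial (Var V) ℚ)).totalDegree
      ≤ 1 := by
    refine (totalDegree_sub _ _).trans ?_
    simp [totalDegree_X]
  have h2 : (((if u.1 = v then 1 else 0) - (if u.1 = w then 1 else 0) :
      MvPolynomial (Var V) ℚ)).totalDegree = 0 := by
    refine Nat.le_zero.1 ((totalDegree_sub _ _).trans ?_)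
    split_ifs <;> simp
  omega

theorem O_bv_deg (G : SimpleGraph V) (v : V) (j k : Fin 2) (u : V × Fin 2) :
    (bv G (fun i : Var V => (X i : MvPolynomial (Var V) ℚ)) v j k u).totalDegree ≤ 2 := by
  simp only [bv, Finset.sum_apply, Pi.smul_apply, smul_eq_mul]
  refine totalDegree_finsetSum_le (fun w _ => ?_)
  refine (totalDegree_mul _ _).trans ?_
  have := O_row_deg v w u
  rw [totalDegree_X]
  omega

omit [DecidableEq V] in
theorem O_fn_deg (x : V × Fin 2 → MvPolynomial (Var V) ℚ) (d : ℕ)
    (h : ∀ u, (x u).totalDegree ≤ d) :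
    (fn (fun i : Var V => (X i : MvPolynomial (Var V) ℚ)) x).totalDegree ≤ d + 1 := by
  unfold fn
  refine totalDegree_finsetSum_le (fun w _ => ?_)
  refine (totalDegree_mul _ _).trans ?_
  have := h w
  rw [totalDegree_X]
  omega

theorem O_yv_deg (G : SimpleGraph V) (v : V) (j : Fin 2) (u : V × Fin 2) :
    (yv G (fun i : Var V => (X i : MvPolynomial (Var V) ℚ)) v j u).totalDegree ≤ 5 := by
  simp only [yv, Pi.sub_apply, Pi.smul_apply, smul_eq_mul]
  refine (totalDegree_sub _ _).trans (max_le ?_ ?_)
  · refine (totalDegree_mul _ _).trans ?_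
    have h1 := O_fn_deg _ 2 (O_bv_deg G v j 1)
    have h2 := O_bv_deg G v j 0 u
    omega
  · refine (totalDegree_mul _ _).trans ?_
    have h1 := O_fn_deg _ 2 (O_bv_deg G v j 0)
    have h2 := O_bv_deg G v j 1 u
    omega

theorem O_T_deg (G : SimpleGraph V) (U : Finset V) (a b : V × Fin 2) :
    (T G U (fun i : Var V => (X i : MvPolynomial (Var V) ℚ)) a b).totalDegree ≤ 10 := by
  simp only [T, Matrix.sum_apply, Matrix.sub_apply, Matrix.vecMulVec_apply]
  refine totalDegree_finsetSum_le (fun w _ => ?_)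
  refine (totalDegree_sub _ _).trans (max_le ?_ ?_) <;>
  · refine (totalDegree_mul _ _).trans ?_
    have h1 := O_yv_deg G w 0 a
    have h2 := O_yv_deg G w 1 b
    have h3 := O_yv_deg G w 1 a
    have h4 := O_yv_deg G w 0 b
    omega

open Classical in
/-- **Module O.** -/
theorem T_count (G : SimpleGraph V) (U : Finset V) (r N : ℕ)
    (h : ∃ ω : Var V → ℚ, r ≤ (T G U ω).rank) :
    (Finset.univ.filter (fun ω : Var V → Fin N =>
        (T G U (fun i => ((ω i : ℕ) : ℚ))).rank < r)).card * N ≤
      20 * Fintype.card V * N ^ Fintype.card (Var V) := by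
  obtain ⟨ω₀, h0⟩ := h
  have hmap : ∀ ω : Var V → ℚ,
      (T G U (fun i : Var V => (X i : MvPolynomial (Var V) ℚ))).map (eval ω) = T G U ω := by
    intro ω
    rw [O_T_map]
    simp
  have hr : r ≤ 2 * Fintype.card V := by
    refine h0.trans ((Matrix.rank_le_card_width _).trans ?_)
    simp [mul_comm]
  obtain ⟨p, hp, hpd, hpe⟩ := O_exists_poly
    (T G U (fun i : Var V => (X i : MvPolynomial (Var V) ℚ))) 10 r (O_T_deg G U) ω₀
    (by rw [hmap]; exact h0)
  have key := O_sz p hp N
  calc _ ≤ (univ.filter (fun ω : Var V → Fin N =>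
          eval (fun i => ((ω i : ℕ) : ℚ)) p = 0)).card * N := by
        refine Nat.mul_le_mul_right N (Finset.card_le_card ?_)
        intro ω hω
        simp only [Finset.mem_filter, Finset.mem_univ, true_and] at hω ⊢
        refine hpe _ ?_
        rw [hmap]
        exact hω
    _ ≤ p.totalDegree * N ^ Fintype.card (Var V) := key
    _ ≤ 20 * Fintype.card V * N ^ Fintype.card (Var V) := by
        refine Nat.mul_le_mul_right _ (hpd.trans ?_)
        omega

end deg

end Pool.Agent.Helper36.Pin
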